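import Pool.Agent.P.MP_ba77d1_co.Main

open Filter Topology

namespace Pool.Agent.Results.MP_ba77d1_co.ExactGrowth

open Pool.Agent.P.MP_ba77d1_co

/-- For `k ≥ 3` every matrix in `R n k` has determinant at most `growth k ^ n` in absolute value;
this is the exact growth rate of `MR n k` whenever `k - 1` is a prime power; for `k = 3` the rate
is `24 ^ (1 / 7)`, which is below `β₃`. -/
theorem result :
    (∀ k n : ℕ, 3 ≤ k → ∀ A ∈ R n k, |A.det| ≤ growth k ^ n) ∧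
    (∀ q : ℕ, IsPrimePow q →
      Tendsto (fun n : ℕ => MR n (q + 1) ^ (1 / (n : ℝ))) atTop (𝓝 (growth (q + 1)))) ∧
    limsup (fun n : ℕ => MR n 3 ^ (1 / (n : ℝ))) atTop = (24 : ℝ) ^ (1 / 7 : ℝ) ∧
    limsup (fun n : ℕ => MR n 3 ^ (1 / (n : ℝ))) atTop
      < (40 / 11 : ℝ) ^ (11 / 36 : ℝ) * (2 : ℝ) ^ (7 / 36 : ℝ) :=
  ⟨fun k n hk A hA => abs_det_le k n hk A hA, tendsto_growth, limsup_three,
    limsup_three ▸ lt_beta⟩

end Pool.Agent.Results.MP_ba77d1_co.ExactGrowth
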